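import Mathlib

/-! Abstract part: two rank three basis systems which are orthogonal. -/

namespace Pool.Agent.Lib.MP_2c7063_co

variable {α : Type*}

/-- bases of a rank three matroid as an alternating ternary relation -/
structure Mat3 (b : α → α → α → Prop) : Prop where
  s12 : ∀ x y z, b x y z → b y x z
  s23 : ∀ x y z, b x y z → b x z y
  ne : ∀ x y z, b x y z → x ≠ y
  ex : ∀ x y z u v w, b x y z → b u v w → b u y z ∨ b v y z ∨ b w y z

/-- orthogonality -/
def Orth (b c : α → α → α → Prop) : Prop :=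
  ∀ x y u v e, b x y e → c u v e → ∃ f, f ≠ e ∧ b x y f ∧ c u v f

/-- no serial exchange of the three elements of `A` -/
structure Bad (b c : α → α → α → Prop) (A : Set α) : Prop where
  mb : Mat3 b
  mc : Mat3 c
  o : Orth b c
  nc : ∀ q ∈ A, ∀ r ∈ A, q ≠ r → ∀ x y z, x ∉ A → y ∉ A → z ∉ A → b x q r → c x q r →
    b x y r → c x y r → b x y z → c x y z → False

theorem Bad.symm {b c : α → α → α → Prop} {A : Set α} (H : Bad b c A) : Bad c b A where
  mb := H.mc
  mc := H.mb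
  o := by
    intro x y u v e h1 h2
    obtain ⟨f, hf, h3, h4⟩ := H.o u v x y e h2 h1
    exact ⟨f, hf, h4, h3⟩
  nc := fun q hq r hr hqr x y z hx hy hz h1 h2 h3 h4 h5 h6 => H.nc q hq r hr hqr x y z hx hy hz h2 h1 h4 h3 h6 h5

/-- a labelling of `A` by a common base -/
structure Lab (b c : α → α → α → Prop) (A : Set α) (p q r : α) : Prop where
  hA : A = {p, q, r}
  hb : b p q r
  hc : c p q r

theorem Lab.symm {b c : α → α → α → Prop} {A : Set α} {p q r : α} (L : Lab b c A p q r) : Lab c b A p q r :=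
  ⟨L.hA, L.hc, L.hb⟩

theorem Lab.s12 {b c : α → α → α → Prop} {A : Set α} {p q r : α} (H : Bad b c A) (L : Lab b c A p q r) :
    Lab b c A q p r :=
  ⟨by rw [L.hA]; ext; simp; tauto, H.mb.s12 _ _ _ L.hb, H.mc.s12 _ _ _ L.hc⟩

theorem Lab.s23 {b c : α → α → α → Prop} {A : Set α} {p q r : α} (H : Bad b c A) (L : Lab b c A p q r) :
    Lab b c A p r q :=
  ⟨by rw [L.hA]; ext; simp; tauto, H.mb.s23 _ _ _ L.hb, H.mc.s23 _ _ _ L.hc⟩

theorem Lab.mem {b c : α → α → α → Prop} {A : Set α} {p q r : α} (L : Lab b c A p q r) {e : α} (he : e ∈ A) :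
    e = p ∨ e = q ∨ e = r := by
  rw [L.hA] at he
  simpa using he

theorem Lab.memp {b c : α → α → α → Prop} {A : Set α} {p q r : α} (L : Lab b c A p q r) : p ∈ A := by
  rw [L.hA]; simp

theorem Lab.memq {b c : α → α → α → Prop} {A : Set α} {p q r : α} (L : Lab b c A p q r) : q ∈ A := by
  rw [L.hA]; simp

theorem Lab.memr {b c : α → α → α → Prop} {A : Set α} {p q r : α} (L : Lab b c A p q r) : r ∈ A := by
  rw [L.hA]; simp

theorem nonloop_base {c : α → α → α → Prop} (m : Mat3 c) {p q r y x x' : α} (h : c p q r) (hy : c y x x') :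
    c y q r ∨ c y p r ∨ c y p q := by
  have h1 := m.ex x y x' p q r (m.s12 _ _ _ hy) h
  have h2 : ∀ e, c e y x' → (c p y e ∨ c q y e ∨ c r y e) := by
    intro e he
    have := m.ex x' y e p q r (by grind [m.s12, m.s23]) h
    grind [m.s12, m.s23]
  grind [m.s12, m.s23, m.ne]

theorem Mat3.ne23 {b : α → α → α → Prop} (m : Mat3 b) {x y z : α} (h : b x y z) : y ≠ z :=
  m.ne _ _ _ (m.s23 _ _ _ (m.s12 _ _ _ h))

theorem Mat3.ne13 {b : α → α → α → Prop} (m : Mat3 b) {x y z : α} (h : b x y z) : x ≠ z :=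
  m.ne _ _ _ (m.s23 _ _ _ h)

theorem Mat3.r {b : α → α → α → Prop} (m : Mat3 b) {x y z : α} (h : b x y z) : b y z x :=
  m.s23 _ _ _ (m.s12 _ _ _ h)

theorem Mat3.l {b : α → α → α → Prop} (m : Mat3 b) {x y z : α} (h : b x y z) : b z x y :=
  m.s12 _ _ _ (m.s23 _ _ _ h)

theorem Mat3.v {b : α → α → α → Prop} (m : Mat3 b) {x y z : α} (h : b x y z) : b z y x :=
  m.s12 _ _ _ (m.s23 _ _ _ (m.s12 _ _ _ h))

/-- exchange in the contraction of `x` -/
theorem Mat3.q {b : α → α → α → Prop} (m : Mat3 b) {x y z u v : α} (h : b x y z) (h' : b x u v) :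
    b x y u ∨ b x y v := by
  have h1 := m.ex z x y x u v (m.s12 _ _ _ (m.s23 _ _ _ h)) h'
  rcases h1 with h1 | h1 | h1
  · exact absurd rfl (m.ne _ _ _ h1)
  · exact Or.inl (m.s23 _ _ _ (m.s12 _ _ _ h1))
  · exact Or.inr (m.s23 _ _ _ (m.s12 _ _ _ h1))

theorem lemC1 {b c : α → α → α → Prop} {A : Set α} (H : Bad b c A) {p q r y h1 h2 : α} (L : Lab b c A p q r)
    (hT : ∀ t, t ∉ A → b h1 h2 t → ∀ x, ¬ c y t x) (hp : b h1 h2 p) (hnl : ∃ x x', c y x x') : c y q r := by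
  by_contra hd
  obtain ⟨x, x', hx⟩ := hnl
  rcases nonloop_base H.mc L.hc hx with h | h | h
  · exact hd h
  · obtain ⟨f, hf, h3, h4⟩ := H.o h1 h2 y r p hp (H.mc.s23 _ _ _ h)
    by_cases hfA : f ∈ A
    · rcases L.mem hfA with e | e | e
      · exact hf e
      · subst e; exact hd (H.mc.s23 _ _ _ h4)
      · subst e; exact H.mc.ne23 h4 rfl
    · exact hT f hfA h3 r (H.mc.s23 _ _ _ h4)
  · obtain ⟨f, hf, h3, h4⟩ := H.o h1 h2 y q p hp (H.mc.s23 _ _ _ h)
    by_cases hfA : f ∈ A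
    · rcases L.mem hfA with e | e | e
      · exact hf e
      · subst e; exact H.mc.ne23 h4 rfl
      · subst e; exact hd h4
    · exact hT f hfA h3 q (H.mc.s23 _ _ _ h4)

theorem lemC2 {b c : α → α → α → Prop} {A : Set α} (H : Bad b c A) {p q r y h1 h2 : α} (L : Lab b c A p q r)
    (hT : ∀ t, t ∉ A → b h1 h2 t → ∀ x, ¬ c y t x) (hp : c y q r) (hh : ∃ x, b h1 h2 x) : b h1 h2 p := by
  by_contra hn
  obtain ⟨x, hx⟩ := hh
  have hex := H.mb.ex x h1 h2 p q r (by grind [H.mb.s12, H.mb.s23]) L.hb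
  have hex' : b h1 h2 q ∨ b h1 h2 r := by grind [H.mb.s12, H.mb.s23]
  rcases hex' with h | h
  · obtain ⟨f, hf, h3, h4⟩ := H.o h1 h2 y r q h (H.mc.s23 _ _ _ hp)
    by_cases hfA : f ∈ A
    · rcases L.mem hfA with e | e | e
      · subst e; exact hn h3
      · exact hf e
      · subst e; exact H.mc.ne23 h4 rfl
    · exact hT f hfA h3 r (H.mc.s23 _ _ _ h4)
  · obtain ⟨f, hf, h3, h4⟩ := H.o h1 h2 y q r h hp
    by_cases hfA : f ∈ A
    · rcases L.mem hfA with e | e | e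
      · subst e; exact hn h3
      · subst e; exact H.mc.ne23 h4 rfl
      · exact hf e
    · exact hT f hfA h3 q (H.mc.s23 _ _ _ h4)

/-- a vertex `y` without a common base `y, z, w` outside `A` -/
theorem lemP {b c : α → α → α → Prop} {A : Set α} (H : Bad b c A) {y : α} (nb : ∃ x x', b y x x')
    (h : ∀ z w, z ∉ A → w ∉ A → b y z w → ¬ c y z w) :
    (∃ v, (∃ x, b y v x) ∧ ∀ t, t ∉ A → b y v t → ∀ x, ¬ c y t x) ∨
      (∃ v, (∃ x, c y v x) ∧ ∀ t, t ∉ A → c y v t → ∀ x, ¬ b y t x) := by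
  by_cases h0 : ∃ z, z ∉ A ∧ (∃ x, b y z x) ∧ ∃ x, c y z x
  · obtain ⟨z, hz, hz1, hz2⟩ := h0
    by_cases h1 : ∀ t, t ∉ A → b y z t → ∀ x, ¬ c y t x
    · exact Or.inl ⟨z, hz1, h1⟩
    · by_cases h2 : ∀ t, t ∉ A → c y z t → ∀ x, ¬ b y t x
      · exact Or.inr ⟨z, hz2, h2⟩
      · exfalso
        push Not at h1 h2
        obtain ⟨w, hw, hw1, x1, hw2⟩ := h1
        obtain ⟨w', hw', hw1', x2, hw2'⟩ := h2
        have e1 : ¬ c y z w := fun hc => h z w hz hw hw1 hc
        have e2 : ¬ b y z w' := fun hb => h z w' hz hw' hb hw1'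
        have f1 : b y w w' := by
          have := H.mb.ex x2 y w' y z w (by grind [H.mb.s12, H.mb.s23]) hw1
          grind [H.mb.s12, H.mb.s23, H.mb.ne]
        have f2 : c y w w' := by
          have := H.mc.ex x1 y w y z w' (by grind [H.mc.s12, H.mc.s23]) hw1'
          grind [H.mc.s12, H.mc.s23, H.mc.ne]
        exact h w w' hw hw' f1 f2
  · push Not at h0
    obtain ⟨x, x', hx⟩ := nb
    exact Or.inl ⟨x, ⟨x', hx⟩, fun t ht ht1 => h0 t ht ⟨x, H.mb.s23 _ _ _ ht1⟩⟩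

/-- the two types of `z` -/
theorem types {b c : α → α → α → Prop} {A : Set α} (H : Bad b c A) {p q r y z w : α} (L : Lab b c A p q r)
    (hy : y ∉ A) (hz : z ∉ A) (hw : w ∉ A) (h1 : b y q r) (h2 : c y q r) (h3 : b y z w) (h4 : c y z w) :
    (¬ b y z q ∧ ¬ c y z r ∧ ¬ b y w r ∧ ¬ c y w q) ∨ (¬ b y z r ∧ ¬ c y z q ∧ ¬ b y w q ∧ ¬ c y w r) := by
  have hqr : q ≠ r := H.mb.ne23 h1
  have h3' : b y w z := H.mb.s23 _ _ _ h3
  have h4' : c y w z := H.mc.s23 _ _ _ h4
  have h1' : b y r q := H.mb.s23 _ _ _ h1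
  have h2' : c y r q := H.mc.s23 _ _ _ h2
  have n1 : ¬ (b y z r ∧ c y z r) := fun ⟨u, v⟩ =>
    H.nc q L.memq r L.memr hqr y z w hy hz hw h1 h2 u v h3 h4
  have n2 : ¬ (b y w r ∧ c y w r) := fun ⟨u, v⟩ =>
    H.nc q L.memq r L.memr hqr y w z hy hw hz h1 h2 u v h3' h4'
  have n3 : ¬ (b y z q ∧ c y z q) := fun ⟨u, v⟩ =>
    H.nc r L.memr q L.memq hqr.symm y z w hy hz hw h1' h2' u v h3 h4
  have n4 : ¬ (b y w q ∧ c y w q) := fun ⟨u, v⟩ =>
    H.nc r L.memr q L.memq hqr.symm y w z hy hw hz h1' h2' u v h3' h4'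
  have b1 := H.mb.q h3 h1
  have b2 := H.mc.q h4 h2
  have b3 := H.mb.q h3' h1
  have b4 := H.mc.q h4' h2
  have b5 : b y z r ∨ b y w r := (H.mb.q h1' h3).imp (H.mb.s23 _ _ _) (H.mb.s23 _ _ _)
  have b6 : b y z q ∨ b y w q := (H.mb.q h1 h3).imp (H.mb.s23 _ _ _) (H.mb.s23 _ _ _)
  tauto

/-- consequences for a vertex `y` with a common base `y, z, w`, first type -/
theorem four_a {b c : α → α → α → Prop} {A : Set α} (H : Bad b c A) {p q r y z w : α} (L : Lab b c A p q r)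
    (hy : y ∉ A) (hz : z ∉ A) (hw : w ∉ A) (h1 : b y q r) (h2 : c y q r) (h3 : b y z w) (h4 : c y z w)
    (t1 : ¬ b y z q) (t2 : ¬ c y z r) (t3 : ¬ b y w r) (t4 : ¬ c y w q)
    {x : α} (hx : x ∉ A) (x1 : b y q x) (x2 : c y q x) : ¬ b y x r ∧ ¬ c y x r := by
  have hqr : q ≠ r := H.mb.ne23 h1
  have h3' : b y w z := H.mb.s23 _ _ _ h3
  have h4' : c y w z := H.mc.s23 _ _ _ h4
  have h1' : b y r q := H.mb.s23 _ _ _ h1
  have h2' : c y r q := H.mc.s23 _ _ _ h2
  have x1' : b y x q := H.mb.s23 _ _ _ x1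
  have x2' : c y x q := H.mc.s23 _ _ _ x2
  -- `x, z` independent in `N/y`
  have e1 : b y x z := by
    rcases H.mb.q h3 x1' with h | h
    · exact H.mb.s23 _ _ _ h
    · exact absurd h t1
  have e2 : ¬ c y x z := fun hc =>
    H.nc r L.memr q L.memq hqr.symm y x z hy hx hz h1' h2' x1' x2' e1 hc
  have e3 : c y x w := by
    rcases H.mc.q h4' x2' with h | h
    · exact H.mc.s23 _ _ _ h
    · exact absurd h t4
  have e4 : ¬ b y x w := fun hb =>
    H.nc r L.memr q L.memq hqr.symm y x w hy hx hw h1' h2' x1' x2' hb e3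
  constructor
  · intro hb
    rcases H.mb.q h3' hb with h | h
    · exact e4 (H.mb.s23 _ _ _ h)
    · exact t3 h
  · intro hc
    rcases H.mc.q h4 hc with h | h
    · exact e2 (H.mc.s23 _ _ _ h)
    · exact t2 h

/-- main step, second part: all elements outside `A` lie in the two lines through `y, q` -/
theorem main1_aux {b c : α → α → α → Prop} {A : Set α} (H : Bad b c A) {p q r y z w : α} (L : Lab b c A p q r)
    (hy : y ∉ A) (hz : z ∉ A) (hw : w ∉ A) (h1 : b y q r) (h2 : c y q r) (h3 : b y z w) (h4 : c y z w)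
    (t1 : ¬ b y z q) (t2 : ¬ c y z r) (t3 : ¬ b y w r) (t4 : ¬ c y w q)
    (hE : ∀ x, x ∉ A → b y q x → ¬ c y q x) :
    b y p q ∧ c y p q ∧ ¬ b y p r ∧ ¬ c y p r ∧
      ∃ x, x ∉ A ∧ b y r x ∧ c y r x ∧ ¬ b y x q ∧ ¬ c y x q ∧ b x p r ∧ c x p r := by
  have h3' : b y w z := H.mb.s23 _ _ _ h3
  have h4' : c y w z := H.mc.s23 _ _ _ h4
  have h1' : b y r q := H.mb.s23 _ _ _ h1
  have h2' : c y r q := H.mc.s23 _ _ _ h2
  have k : b y q p ∧ c y q p := by
    obtain ⟨f, hf, f1, f2⟩ := H.o y q y q r h1 h2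
    by_cases hfA : f ∈ A
    · rcases L.mem hfA with e | e | e
      · subst e; exact ⟨f1, f2⟩
      · subst e; exact absurd rfl (H.mb.ne23 f1)
      · exact absurd e hf
    · exact absurd f2 (hE f hfA f1)
  have L' : Lab b c A r q p := ((L.s12 H).s23 H).s12 H
  have hzq : c y z q := by
    rcases H.mc.q h4 h2 with h | h
    · exact h
    · exact absurd h t2
  have tt : ¬ c y z p ∧ ¬ b y w p := by
    rcases types H L' hy hz hw k.1 k.2 h3 h4 with h | h
    · exact ⟨h.2.1, h.2.2.1⟩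
    · exact absurd hzq h.2.1
  have n1 : ¬ b y p r := fun hb => by
    rcases H.mb.q h3' hb with h | h
    · exact tt.2 h
    · exact t3 h
  have n2 : ¬ c y p r := fun hc => by
    rcases H.mc.q h4 hc with h | h
    · exact tt.1 h
    · exact t2 h
  refine ⟨H.mb.s23 _ _ _ k.1, H.mc.s23 _ _ _ k.2, n1, n2, ?_⟩
  obtain ⟨f, hf, f1, f2⟩ := H.o y r y r q h1' h2'
  have hfA : f ∉ A := by
    intro hfA
    rcases L.mem hfA with e | e | e
    · subst e; exact n1 (H.mb.s23 _ _ _ f1)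
    · exact hf e
    · subst e; exact H.mb.ne23 f1 rfl
  have g := four_a H (L.s23 H) hy hw hz h1' h2' h3' h4' t3 t4 t1 t2 hfA f1 f2
  refine ⟨f, hfA, f1, f2, g.1, g.2, ?_, ?_⟩
  · rcases H.mb.ex q p r y r f (H.mb.s12 _ _ _ L.hb) f1 with h | h | h
    · exact absurd h n1
    · exact absurd rfl (H.mb.ne13 h)
    · exact h
  · rcases H.mc.ex q p r y r f (H.mc.s12 _ _ _ L.hc) f2 with h | h | h
    · exact absurd h n2
    · exact absurd rfl (H.mc.ne13 h)
    · exact h

theorem main1 {b c : α → α → α → Prop} {A : Set α} (H : Bad b c A) {p q r y z w : α} (L : Lab b c A p q r)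
    (hy : y ∉ A) (hz : z ∉ A) (hw : w ∉ A) (h1 : b y q r) (h2 : c y q r) (h3 : b y z w) (h4 : c y z w) :
    ∃ q' r', Lab b c A p q' r' ∧ b y q' r' ∧ c y q' r' ∧ b y p q' ∧ c y p q' ∧ ¬ b y p r' ∧ ¬ c y p r' ∧
      ∃ x, x ∉ A ∧ b y r' x ∧ c y r' x ∧ ¬ b y x q' ∧ ¬ c y x q' ∧ b x p r' ∧ c x p r' := by
  -- choose the names of `z, w` so that the first type holds
  have key : ∀ z w : α, z ∉ A → w ∉ A → b y z w → c y z w →
      (¬ b y z q ∧ ¬ c y z r ∧ ¬ b y w r ∧ ¬ c y w q) →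
      ∃ q' r', Lab b c A p q' r' ∧ b y q' r' ∧ c y q' r' ∧ b y p q' ∧ c y p q' ∧ ¬ b y p r' ∧ ¬ c y p r' ∧
        ∃ x, x ∉ A ∧ b y r' x ∧ c y r' x ∧ ¬ b y x q' ∧ ¬ c y x q' ∧ b x p r' ∧ c x p r' := by
    intro z w hz hw h3 h4 ⟨t1, t2, t3, t4⟩
    have h3' : b y w z := H.mb.s23 _ _ _ h3
    have h4' : c y w z := H.mc.s23 _ _ _ h4
    have h1' : b y r q := H.mb.s23 _ _ _ h1
    have h2' : c y r q := H.mc.s23 _ _ _ h2
    by_cases hE : ∀ x, x ∉ A → b y q x → ¬ c y q x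
    · exact ⟨q, r, L, h1, h2, main1_aux H L hy hz hw h1 h2 h3 h4 t1 t2 t3 t4 hE⟩
    · by_cases hE' : ∀ x, x ∉ A → b y r x → ¬ c y r x
      · exact ⟨r, q, L.s23 H, h1', h2', main1_aux H (L.s23 H) hy hw hz h1' h2' h3' h4' t3 t4 t1 t2 hE'⟩
      · exfalso
        push Not at hE hE'
        obtain ⟨x, hx, x1, x2⟩ := hE
        obtain ⟨x', hx', x1', x2'⟩ := hE'
        have g := four_a H L hy hz hw h1 h2 h3 h4 t1 t2 t3 t4 hx x1 x2
        have e1 : b y x x' := by
          rcases H.mb.q (H.mb.s23 _ _ _ x1) x1' with h | h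
          · exact absurd h g.1
          · exact h
        have e2 : c y x x' := by
          rcases H.mc.q (H.mc.s23 _ _ _ x2) x2' with h | h
          · exact absurd h g.2
          · exact h
        exact H.nc r L.memr q L.memq (H.mb.ne23 h1') y x x' hy hx hx' h1' h2' (H.mb.s23 _ _ _ x1)
          (H.mc.s23 _ _ _ x2) e1 e2
  rcases types H L hy hz hw h1 h2 h3 h4 with h | h
  · exact key z w hz hw h3 h4 h
  · exact key w z hw hz (H.mb.s23 _ _ _ h3) (H.mc.s23 _ _ _ h4) ⟨h.2.2.1, h.2.2.2, h.1, h.2.1⟩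

/-- no common base `y, z, w` outside `A` with `y` exchangeable -/
theorem four {b c : α → α → α → Prop} {A : Set α} (H : Bad b c A) {p q r y z w : α} (L : Lab b c A p q r)
    (hy : y ∉ A) (hz : z ∉ A) (hw : w ∉ A) (h1 : b y q r) (h2 : c y q r) (h3 : b y z w) (h4 : c y z w) : False := by
  obtain ⟨q', r', L', g1, g2, g3, g4, g5, g6, x, hx, x1, x2, x3, x4, x5, x6⟩ := main1 H L hy hz hw h1 h2 h3 h4
  have L2 : Lab b c A q' p r' := L'.s12 H
  by_cases h : ∃ z' w', z' ∉ A ∧ w' ∉ A ∧ b x z' w' ∧ c x z' w'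
  · obtain ⟨z', w', hz', hw', k1, k2⟩ := h
    obtain ⟨q2, r2, L3, _, _, m3, _, m5, _, _⟩ := main1 H L2 hx hz' hw' x5 x6 k1 k2
    have hr2 : b y q' r2 := by
      rcases L'.mem L3.memr with e | e | e
      · subst e; exact H.mb.s23 _ _ _ g3
      · exact absurd e.symm (H.mb.ne13 L3.hb)
      · subst e; exact g1
    rcases H.mb.q (H.mb.s12 _ _ _ m3) (H.mb.s12 _ _ _ hr2) with h | h
    · exact x3 (by
        have := H.mb.s12 _ _ _ (H.mb.s23 _ _ _ h)
        exact H.mb.s23 _ _ _ (H.mb.s12 _ _ _ (H.mb.s23 _ _ _ h)))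
    · exact m5 (H.mb.s12 _ _ _ h)
  · push Not at h
    have hyx : b x y r' := H.mb.l x1
    have hyx' : c x y r' := H.mc.l x2
    rcases lemP H ⟨p, r', x5⟩ h with ⟨v, hv, hT⟩ | ⟨v, hv, hT⟩
    · have a1 : b x v q' := lemC2 H L2 hT x6 hv
      have a2 : ¬ b x v y := fun hb => hT y hy hb r' hyx'
      rcases H.mb.q hyx a1 with h | h
      · exact a2 (H.mb.s23 _ _ _ h)
      · exact x3 (H.mb.s12 _ _ _ h)
    · have a1 : c x v q' := lemC2 H.symm L2.symm hT x5 hv
      have a2 : ¬ c x v y := fun hb => hT y hy hb r' hyx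
      rcases H.mc.q hyx' a1 with h | h
      · exact a2 (H.mc.s23 _ _ _ h)
      · exact x4 (H.mc.s12 _ _ _ h)

/-- parallel elements may be replaced by each other -/
theorem Mat3.par {c : α → α → α → Prop} (m : Mat3 c) {y t x x' u u' : α} (h : ∀ x, ¬ c y t x)
    (h1 : c y x x') (h2 : c t u u') : c t x x' := by
  rcases nonloop_base m h1 h2 with h3 | h3 | h3
  · exact h3
  · exact absurd (m.s12 _ _ _ h3) (h _)
  · exact absurd (m.s12 _ _ _ h3) (h _)

/-- a line does not contain a base -/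
theorem Mat3.line {b : α → α → α → Prop} (m : Mat3 b) {x y z u v w : α} (h : b y z x)
    (h' : b u v w) : b y z u ∨ b y z v ∨ b y z w := by
  rcases m.ex x y z u v w (m.l h) h' with h | h | h
  · exact Or.inl (m.r h)
  · exact Or.inr (Or.inl (m.r h))
  · exact Or.inr (Or.inr (m.r h))

/-- symmetric exchange -/
theorem Mat3.sx {b : α → α → α → Prop} (m : Mat3 b) {t y v p q r : α} (h1 : b t y v)
    (h2 : b p q r) : (b y v p ∧ b t q r) ∨ (b y v q ∧ b t p r) ∨ (b y v r ∧ b t p q) := by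
  -- one element of the base outside the line, not exchangeable
  have one : ∀ p q r : α, b p q r → ¬ b t q r → b y v q ∨ b y v r := by
    intro p q r h ht
    rcases m.line (m.r h) (m.r h1) with k | k | k
    · rcases m.line (m.r h1) k with e | e | e
      · exact Or.inl e
      · exact Or.inr e
      · exact absurd rfl (m.ne13 e)
    · rcases m.line (m.r h1) k with e | e | e
      · exact Or.inl e
      · exact Or.inr e
      · exact absurd rfl (m.ne23 e)
    · exact absurd (m.l k) ht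
  -- two elements of the base outside the line, both not exchangeable
  have two : ∀ p q r : α, b p q r → ¬ b t q r → ¬ b t p r → b y v r := by
    intro p q r h ht1 ht2
    have hpar : ∀ x, ¬ b t r x := by
      intro x hx
      rcases m.q (m.s12 _ _ _ hx) (m.l h) with e | e
      · exact ht2 (m.r e)
      · exact ht1 (m.r e)
    exact m.r (m.par hpar h1 (m.l h))
  have o1 := one p q r h2
  have o2 := one q p r (m.s12 _ _ _ h2)
  have o3 := one r p q (m.l h2)
  have t1 := two p q r h2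
  have t2 := two p r q (m.s23 _ _ _ h2)
  have t3 := two q r p (m.r h2)
  have z := m.line (m.r h1) h2
  have z' := nonloop_base m h2 h1
  have c1 : b t r q → b t q r := m.s23 _ _ _
  have c2 : b t r p → b t p r := m.s23 _ _ _
  have c3 : b t q p → b t p q := m.s23 _ _ _
  by_contra hcon
  have d1 : b y v p → ¬ b t q r := fun h h' => hcon (Or.inl ⟨h, h'⟩)
  have d2 : b y v q → ¬ b t p r := fun h h' => hcon (Or.inr (Or.inl ⟨h, h'⟩))
  have d3 : b y v r → ¬ b t p q := fun h h' => hcon (Or.inr (Or.inr ⟨h, h'⟩))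
  have t2' : ¬ b t q r → ¬ b t p q → b y v q := fun h h' => t2 (fun k => h (c1 k)) h'
  have t3' : ¬ b t p r → ¬ b t p q → b y v p := fun h h' => t3 (fun k => h (c2 k))
    (fun k => h' (c3 k))
  have fin : b y v p ∧ b y v q ∧ b y v r := by
    rcases z with h | h | h
    · rcases o1 (d1 h) with h' | h'
      · exact ⟨h, h', t1 (d1 h) (d2 h')⟩
      · exact ⟨h, t2' (d1 h) (d3 h'), h'⟩
    · rcases o2 (d2 h) with h' | h'
      · exact ⟨h', h, t1 (d1 h') (d2 h)⟩
      · exact ⟨t3' (d2 h) (d3 h'), h, h'⟩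
    · rcases o3 (d3 h) with h' | h'
      · exact ⟨h', t2' (d1 h') (d3 h), h⟩
      · exact ⟨t3' (d2 h') (d3 h), h', h⟩
  rcases z' with h | h | h
  · exact d1 fin.1 h
  · exact d2 fin.2.1 h
  · exact d3 fin.2.2 h

/-- the case of two different lines of the same matroid -/
theorem five_I {b c : α → α → α → Prop} {A : Set α} (H : Bad b c A) {p q r y v s v' : α}
    (L : Lab b c A p q r) (h2 : c y q r)
    (hT : ∀ t, t ∉ A → b y v t → ∀ x, ¬ c y t x)
    (hs : b y v s) (hsA : s ∉ A) (hsn : ∃ u u', c s u u')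
    (hv' : ∃ x, b s v' x) (hT' : ∀ t, t ∉ A → b s v' t → ∀ x, ¬ c s t x) : False := by
  have hys : ∀ x, ¬ c y s x := hT s hsA hs
  obtain ⟨u, u', hsn⟩ := hsn
  obtain ⟨x0, hv'⟩ := hv'
  -- elements not parallel to `y` lie on both lines
  have hF : ∀ f, f ∉ A → (∃ x, c y f x) → ¬ b y v f ∧ ¬ b s v' f := by
    intro f hf ⟨x, hx⟩
    exact ⟨fun h => hT f hf h x hx, fun h => hT' f hf h x (H.mc.par hys hx hsn)⟩
  -- the two lines have at most one point in common
  have hFF : ∀ f f' a, ¬ b y v f → ¬ b s v' f → ¬ b y v f' → ¬ b s v' f' → ¬ b f f' a := by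
    intro f f' a e1 e2 e3 e4 h
    rcases H.mb.line h hs with k | k | k
    · rcases H.mb.line hs k with e | e | e
      · exact e1 e
      · exact e3 e
      · exact H.mb.ne13 e rfl
    · rcases H.mb.line hs k with e | e | e
      · exact e1 e
      · exact e3 e
      · exact H.mb.ne23 e rfl
    · rcases H.mb.line hv' k with e | e | e
      · exact e2 e
      · exact e4 e
      · exact H.mb.ne13 e rfl
  by_cases hf : ∃ f, (∃ x x', b f x x') ∧ ¬ b y v f ∧ ¬ b s v' f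
  · obtain ⟨f, ⟨x, x', hfn⟩, f1, f2⟩ := hf
    -- the main relation
    have key : ∀ a d e, A = {a, d, e} → b f a e → ¬ c y d e := by
      intro a d e hA k1 k2
      obtain ⟨g, hg, g1, g2⟩ := H.o f a y d e k1 k2
      by_cases hgA : g ∈ A
      · rw [hA] at hgA
        rcases hgA with e | e | e
        · subst e; exact H.mb.ne23 g1 rfl
        · subst e; exact H.mc.ne23 g2 rfl
        · exact hg e
      · have := hF g hgA ⟨d, H.mc.s23 _ _ _ g2⟩
        exact hFF f g a f1 f2 this.1 this.2 (H.mb.s23 _ _ _ g1)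
    have hA := L.hA
    have n1 : ¬ b f p r := fun h => key p q r hA h h2
    have n2 : ¬ b f p q := fun h => key p r q (by rw [hA]; ext; simp; tauto) h (H.mc.s23 _ _ _ h2)
    have n3 : b f q r := by
      rcases nonloop_base H.mb L.hb hfn with h | h | h
      · exact h
      · exact absurd h n1
      · exact absurd h n2
    have n4 : ¬ c y p q := key r p q (by rw [hA]; ext; simp; tauto) (H.mb.s23 _ _ _ n3)
    obtain ⟨g, hg, g1, g2⟩ := H.o f q y q r n3 h2
    by_cases hgA : g ∈ A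
    · rcases L.mem hgA with e | e | e
      · subst e; exact n4 (H.mc.s23 _ _ _ g2)
      · subst e; exact H.mb.ne23 g1 rfl
      · exact hg e
    · have := hF g hgA ⟨q, H.mc.s23 _ _ _ g2⟩
      exact hFF f g q f1 f2 this.1 this.2 (H.mb.s23 _ _ _ g1)
  · push Not at hf
    obtain ⟨g, hg, g1, g2⟩ := H.o p q y q r L.hb h2
    by_cases hgA : g ∈ A
    · rcases L.mem hgA with e | e | e
      · subst e; exact H.mb.ne13 g1 rfl
      · subst e; exact H.mb.ne23 g1 rfl
      · exact hg e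
    · have := hF g hgA ⟨q, H.mc.s23 _ _ _ g2⟩
      exact this.2 (hf g ⟨p, q, H.mb.l g1⟩ this.1)

/-- the case of two lines of different matroids -/
theorem five_II {b c : α → α → α → Prop} {A : Set α} (H : Bad b c A) {p q r y v s v' : α}
    (L : Lab b c A p q r) (hyn : ∃ u u', c y u u')
    (hT : ∀ t, t ∉ A → b y v t → ∀ x, ¬ c y t x)
    (hs : b y v s) (hsA : s ∉ A)
    (hv' : ∃ x, c s v' x) (hT' : ∀ t, t ∉ A → c s v' t → ∀ x, ¬ b s t x) : False := by
  have hys : ∀ x, ¬ c y s x := hT s hsA hs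
  obtain ⟨u, u', hyn⟩ := hyn
  obtain ⟨x0, hv'⟩ := hv'
  have hsy : ∀ x, ¬ c s y x := fun x hx => hys x (H.mc.s12 _ _ _ hx)
  -- elements outside the second line are loops
  have loop : ∀ t, t ∉ A → c s v' t → ∀ x x', ¬ b t x x' := by
    intro t ht h x x' hx
    have h1 : c y v' t := H.mc.par hsy h hyn
    have h2 : ¬ b y v t := fun k => hT t ht k v' (H.mc.s23 _ _ _ h1)
    exact h2 (H.mb.r (H.mb.par (hT' t ht h) (H.mb.l hs) hx))
  have fin : ∀ a d e, A = {a, d, e} → b a d e → ¬ c s v' e := by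
    intro a d e hA k1 k2
    obtain ⟨g, hg, g1, g2⟩ := H.o a d s v' e k1 k2
    by_cases hgA : g ∈ A
    · rw [hA] at hgA
      rcases hgA with e | e | e
      · subst e; exact H.mb.ne13 g1 rfl
      · subst e; exact H.mb.ne23 g1 rfl
      · exact hg e
    · exact loop g hgA g2 a d (H.mb.l g1)
  have hA := L.hA
  rcases H.mc.line hv' L.hc with h | h | h
  · exact fin q r p (by rw [hA]; ext; simp; tauto) (H.mb.r L.hb) h
  · exact fin r p q (by rw [hA]; ext; simp; tauto) (H.mb.l L.hb) h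
  · exact fin p q r hA L.hb h

theorem five_aux {b c : α → α → α → Prop} {A : Set α} (H : Bad b c A) {p q r y v : α}
    (L : Lab b c A p q r) (h2 : c y q r) (hv : ∃ x, b y v x)
    (hT : ∀ t, t ∉ A → b y v t → ∀ x, ¬ c y t x) : False := by
  have hp : b y v p := lemC2 H L hT h2 hv
  obtain ⟨s, hsp, s1, s2⟩ := H.o y v q r p hp (H.mc.r L.hc)
  have hsA : s ∉ A := by
    intro h
    rcases L.mem h with e | e | e
    · exact hsp e
    · subst e; exact H.mc.ne13 s2 rfl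
    · subst e; exact H.mc.ne23 s2 rfl
  have hys : ∀ x, ¬ c y s x := hT s hsA s1
  -- `s` is exchangeable
  have act : ∃ p' q' r', Lab b c A p' q' r' ∧ b s q' r' ∧ b y v p' := by
    rcases H.mb.sx (H.mb.l s1) L.hb with h | h | h
    · exact ⟨p, q, r, L, h.2, h.1⟩
    · exact ⟨q, p, r, L.s12 H, h.2, h.1⟩
    · exact ⟨r, p, q, (L.s23 H).s12 H, h.2, h.1⟩
  obtain ⟨p', q', r', L', k1, k2⟩ := act
  have k3 : c y q' r' := lemC1 H L' hT k2 ⟨q, r, h2⟩
  have k4 : c s q' r' := H.mc.par hys k3 (H.mc.l s2)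
  rcases lemP H ⟨q', r', k1⟩ (fun z w hz hw e1 e2 => four H L' hsA hz hw k1 k4 e1 e2) with
    ⟨v', g1, g2⟩ | ⟨v', g1, g2⟩
  · exact five_I H L h2 hT s1 hsA ⟨q', r', k4⟩ g1 g2
  · exact five_II H L ⟨q, r, h2⟩ hT s1 hsA g1 g2

/-- there is always a serial exchange -/
theorem no_bad {b c : α → α → α → Prop} {A : Set α} (H : Bad b c A) {p q r : α}
    (L : Lab b c A p q r) : False := by
  obtain ⟨y, hy, y1, y2⟩ := H.o q r q r p (H.mb.r L.hb) (H.mc.r L.hc)
  have hyA : y ∉ A := by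
    intro h
    rcases L.mem h with e | e | e
    · exact hy e
    · subst e; exact H.mc.ne13 y2 rfl
    · subst e; exact H.mc.ne23 y2 rfl
  have e1 : b y q r := H.mb.l y1
  have e2 : c y q r := H.mc.l y2
  rcases lemP H ⟨q, r, e1⟩ (fun z w hz hw k1 k2 => four H L hyA hz hw e1 e2 k1 k2) with
    ⟨v, g1, g2⟩ | ⟨v, g1, g2⟩
  · exact five_aux H L e2 g1 g2
  · exact five_aux H.symm L.symm e1 g1 g2

/-- the abstract form of the theorem on three elements -/
theorem exists_chain {b c : α → α → α → Prop} {A : Set α} (mb : Mat3 b) (mc : Mat3 c)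
    (o : Orth b c) {p q r : α} (hA : A = {p, q, r}) (hb : b p q r) (hc : c p q r) :
    ∃ q ∈ A, ∃ r ∈ A, q ≠ r ∧ ∃ x y z, x ∉ A ∧ y ∉ A ∧ z ∉ A ∧ b x q r ∧ c x q r ∧
      b x y r ∧ c x y r ∧ b x y z ∧ c x y z := by
  by_contra h
  refine no_bad (b := b) (c := c) (A := A) (p := p) (q := q) (r := r) ⟨mb, mc, o, ?_⟩ ⟨hA, hb, hc⟩
  intro q hq r hr hqr x y z hx hy hz h1 h2 h3 h4 h5 h6
  exact h ⟨q, hq, r, hr, hqr, x, y, z, hx, hy, hz, h1, h2, h3, h4, h5, h6⟩

end Pool.Agent.Lib.MP_2c7063_co
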