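import Pool.Agent.Lib.MP_2c7063_co.Abs

/-! Three elements of a base: from the abstract theorem to matroids. -/

namespace Pool.Agent.Lib.MP_2c7063_co

open Set

variable {α : Type*}

/-- symmetric exchange -/
theorem symm_exchange {M : Matroid α} {X U : Set α} (hX : M.IsBase X) (hU : M.IsBase U) {e : α}
    (he : e ∈ X) (heU : e ∉ U) :
    ∃ f ∈ U, f ∉ X ∧ M.IsBase (insert f (X \ {e})) ∧ M.IsBase (insert e (U \ {f})) := by
  have heE : e ∈ M.E := hX.subset_ground he
  have hcl : e ∈ M.closure U := by rw [hU.closure_eq]; exact heE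
  have hC := hU.indep.fundCircuit_isCircuit hcl heU
  by_contra hcon
  push Not at hcon
  have hXE : X \ {e} ⊆ M.E := sdiff_subset.trans hX.subset_ground
  have hsub : M.fundCircuit e U \ {e} ⊆ M.closure (X \ {e}) := by
    intro f hf
    have hfU : f ∈ U := by
      rcases M.fundCircuit_subset_insert e U hf.1 with h | h
      · exact absurd h hf.2
      · exact h
    have hfE := hU.subset_ground hfU
    by_contra hfc
    have hfX : f ∉ X := fun h => hfc (M.subset_closure (X \ {e}) hXE ⟨h, hf.2⟩)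
    have h1 := hX.exchange_base_of_notMem_closure he hfc hfE
    have h2 : M.Indep (insert e U \ {f}) := (hU.indep.mem_fundCircuit_iff hcl heU).1 hf.1
    have h3 := hU.exchange_isBase_of_indep' hfU heU h2
    have hne : e ≠ f := fun h => hf.2 h.symm
    rw [← insert_sdiff_singleton_comm hne] at h3
    exact hcon f hfU hfX h1 h3
  have h5 : e ∈ M.closure (M.fundCircuit e U \ {e}) :=
    hC.mem_closure_sdiff_singleton_of_mem (M.mem_fundCircuit e U)
  have h6 : e ∈ M.closure (X \ {e}) := M.closure_subset_closure_of_subset_closure hsub h5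
  exact hX.indep.notMem_closure_sdiff_of_mem he h6

/-- distinct elements of `E` -/
def Dist (E : Set α) (x y z : α) : Prop := x ∈ E ∧ y ∈ E ∧ z ∈ E ∧ x ≠ y ∧ x ≠ z ∧ y ≠ z

/-- the contraction -/
def bN (M : Matroid α) (E C : Set α) (x y z : α) : Prop :=
  Dist E x y z ∧ M.IsBase (insert x (insert y (insert z C)))

/-- the dual of the restriction -/
def bD (M : Matroid α) (E : Set α) (x y z : α) : Prop :=
  Dist E x y z ∧ M.IsBase (E \ {x, y, z})

theorem bN_mat {M : Matroid α} {E C : Set α} (hC : ∀ x ∈ E, x ∉ C) : Mat3 (bN M E C) where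
  s12 := by
    rintro x y z ⟨⟨h1, h2, h3, h4, h5, h6⟩, h⟩
    exact ⟨⟨h2, h1, h3, h4.symm, h6, h5⟩, by rwa [insert_comm] at h⟩
  s23 := by
    rintro x y z ⟨⟨h1, h2, h3, h4, h5, h6⟩, h⟩
    exact ⟨⟨h1, h3, h2, h5, h4, h6.symm⟩, by rwa [insert_comm y z] at h⟩
  ne := by
    rintro x y z ⟨⟨h1, h2, h3, h4, h5, h6⟩, h⟩
    exact h4
  ex := by
    rintro x y z u v w ⟨⟨h1, h2, h3, h4, h5, h6⟩, h⟩ ⟨⟨g1, g2, g3, g4, g5, g6⟩, g⟩
    by_cases hx : x = u ∨ x = v ∨ x = w
    · rcases hx with rfl | rfl | rfl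
      · exact Or.inl ⟨⟨h1, h2, h3, h4, h5, h6⟩, h⟩
      · exact Or.inr (Or.inl ⟨⟨h1, h2, h3, h4, h5, h6⟩, h⟩)
      · exact Or.inr (Or.inr ⟨⟨h1, h2, h3, h4, h5, h6⟩, h⟩)
    · push Not at hx
      have hxC := hC x h1
      obtain ⟨e, he, hb⟩ := h.exchange g (e := x) ⟨by simp, by simp [hx, hxC]⟩
      have hset : (insert x (insert y (insert z C))) \ {x} = insert y (insert z C) := by
        ext t
        simp only [mem_sdiff, mem_insert_iff, mem_singleton_iff]
        constructor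
        · tauto
        · intro ht
          refine ⟨Or.inr ht, ?_⟩
          rintro rfl
          rcases ht with ht | ht | ht
          · exact h4 ht
          · exact h5 ht
          · exact hxC ht
      rw [hset] at hb
      have he2 : e ≠ y ∧ e ≠ z ∧ e ∉ C := by
        refine ⟨?_, ?_, ?_⟩ <;> intro h' <;> exact he.2 (by simp [h'])
      rcases he.1 with he1 | he1 | he1 | he1
      · subst he1; exact Or.inl ⟨⟨g1, h2, h3, he2.1, he2.2.1, h6⟩, hb⟩
      · subst he1; exact Or.inr (Or.inl ⟨⟨g2, h2, h3, he2.1, he2.2.1, h6⟩, hb⟩)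
      · subst he1; exact Or.inr (Or.inr ⟨⟨g3, h2, h3, he2.1, he2.2.1, h6⟩, hb⟩)
      · exact absurd he1 he2.2.2

theorem bD_mat {M : Matroid α} {E : Set α} : Mat3 (bD M E) where
  s12 := by
    rintro x y z ⟨⟨h1, h2, h3, h4, h5, h6⟩, h⟩
    exact ⟨⟨h2, h1, h3, h4.symm, h6, h5⟩, by rwa [insert_comm] at h⟩
  s23 := by
    rintro x y z ⟨⟨h1, h2, h3, h4, h5, h6⟩, h⟩
    exact ⟨⟨h1, h3, h2, h5, h4, h6.symm⟩, by rwa [pair_comm y z] at h⟩
  ne := by
    rintro x y z ⟨⟨h1, h2, h3, h4, h5, h6⟩, h⟩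
    exact h4
  ex := by
    rintro x y z u v w ⟨⟨h1, h2, h3, h4, h5, h6⟩, h⟩ ⟨⟨g1, g2, g3, g4, g5, g6⟩, g⟩
    by_cases hx : x = u ∨ x = v ∨ x = w
    · rcases hx with rfl | rfl | rfl
      · exact Or.inl ⟨⟨h1, h2, h3, h4, h5, h6⟩, h⟩
      · exact Or.inr (Or.inl ⟨⟨h1, h2, h3, h4, h5, h6⟩, h⟩)
      · exact Or.inr (Or.inr ⟨⟨h1, h2, h3, h4, h5, h6⟩, h⟩)
    · push Not at hx
      obtain ⟨e, he, heV, -, hb⟩ := symm_exchange g h (e := x) ⟨h1, by simp [hx]⟩ (by simp)
      have he3 : e ≠ x ∧ e ≠ y ∧ e ≠ z := by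
        have := he.2
        simp only [mem_insert_iff, mem_singleton_iff, not_or] at this
        exact this
      have hset : insert x ((E \ {x, y, z}) \ {e}) = E \ {e, y, z} := by
        ext t
        simp only [mem_sdiff, mem_insert_iff, mem_singleton_iff]
        constructor
        · rintro (rfl | ht)
          · exact ⟨h1, by push Not; exact ⟨he3.1.symm, h4, h5⟩⟩
          · tauto
        · intro ht
          by_cases htx : t = x
          · exact Or.inl htx
          · right; tauto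
      rw [hset] at hb
      have heuvw : e = u ∨ e = v ∨ e = w := by
        by_contra hcon
        exact heV ⟨he.1, by simpa using hcon⟩
      rcases heuvw with he1 | he1 | he1
      · subst he1; exact Or.inl ⟨⟨g1, h2, h3, he3.2.1, he3.2.2, h6⟩, hb⟩
      · subst he1; exact Or.inr (Or.inl ⟨⟨g2, h2, h3, he3.2.1, he3.2.2, h6⟩, hb⟩)
      · subst he1; exact Or.inr (Or.inr ⟨⟨g3, h2, h3, he3.2.1, he3.2.2, h6⟩, hb⟩)

theorem bN_bD_orth {M : Matroid α} {E C : Set α} (hC : ∀ x ∈ E, x ∉ C) :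
    Orth (bN M E C) (bD M E) := by
  rintro x y u v e ⟨⟨h1, h2, h3, h4, h5, h6⟩, h⟩ ⟨⟨g1, g2, g3, g4, g5, g6⟩, g⟩
  obtain ⟨f, hf, hfX, k1, k2⟩ := symm_exchange h g (e := e) (by simp) (by simp)
  have hfX' : f ≠ x ∧ f ≠ y ∧ f ≠ e ∧ f ∉ C := by
    refine ⟨?_, ?_, ?_, ?_⟩ <;> intro h' <;> exact hfX (by simp [h'])
  have hfU : f ≠ u ∧ f ≠ v := by
    have := hf.2
    simp only [mem_insert_iff, mem_singleton_iff, not_or] at this
    exact ⟨this.1, this.2.1⟩
  refine ⟨f, hfX'.2.2.1, ⟨⟨h1, h2, hf.1, h4, hfX'.1.symm, hfX'.2.1.symm⟩, ?_⟩,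
    ⟨⟨g1, g2, hf.1, g4, hfU.1.symm, hfU.2.symm⟩, ?_⟩⟩
  · have hset : insert f ((insert x (insert y (insert e C))) \ {e}) =
        insert x (insert y (insert f C)) := by
      have heC := hC e h3
      ext t
      simp only [mem_sdiff, mem_insert_iff, mem_singleton_iff]
      constructor
      · tauto
      · rintro (rfl | rfl | rfl | ht)
        · exact Or.inr ⟨Or.inl rfl, h5⟩
        · exact Or.inr ⟨Or.inr (Or.inl rfl), h6⟩
        · exact Or.inl rfl
        · refine Or.inr ⟨Or.inr (Or.inr (Or.inr ht)), ?_⟩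
          rintro rfl
          exact heC ht
    rwa [hset] at k1
  · have hset : insert e ((E \ {u, v, e}) \ {f}) = E \ {u, v, f} := by
      ext t
      simp only [mem_sdiff, mem_insert_iff, mem_singleton_iff]
      constructor
      · rintro (rfl | ht)
        · exact ⟨g3, by push Not; exact ⟨g5.symm, g6.symm, hfX'.2.2.1.symm⟩⟩
        · tauto
      · intro ht
        by_cases hte : t = e
        · exact Or.inl hte
        · right; tauto
    rwa [hset] at k2

end Pool.Agent.Lib.MP_2c7063_co
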