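import Pool.Agent.Lib.MP_2c7063_co.Bridge

/-! Three elements of a base: the theorems. -/

namespace Pool.Agent.Lib.MP_2c7063_co

open Set

variable {α : Type*}

theorem core {M : Matroid α} {B B' A : Set α} (hB : M.IsBase B) (hB' : M.IsBase B')
    (hd : Disjoint B B') (hA : A ⊆ B) (h3 : A.ncard = 3) :
    ∃ a₁ a₂ a₃ b₁ b₂ b₃, A = {a₁, a₂, a₃} ∧ (a₁ ≠ a₂ ∧ a₁ ≠ a₃ ∧ a₂ ≠ a₃) ∧
      (b₁ ∈ B' ∧ b₂ ∈ B' ∧ b₃ ∈ B') ∧ (b₁ ≠ b₂ ∧ b₁ ≠ b₃ ∧ b₂ ≠ b₃) ∧
      (M.IsBase ((B \ {a₁}) ∪ {b₁}) ∧ M.IsBase ((B' \ {b₁}) ∪ {a₁})) ∧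
      (M.IsBase ((B \ {a₁, a₂}) ∪ {b₁, b₂}) ∧ M.IsBase ((B' \ {b₁, b₂}) ∪ {a₁, a₂})) ∧
      (M.IsBase ((B \ {a₁, a₂, a₃}) ∪ {b₁, b₂, b₃}) ∧
        M.IsBase ((B' \ {b₁, b₂, b₃}) ∪ {a₁, a₂, a₃})) := by
  obtain ⟨p, q, r, hpq, hpr, hqr, hA3⟩ := ncard_eq_three.1 h3
  have hpA : p ∈ A := by rw [hA3]; simp
  have hqA : q ∈ A := by rw [hA3]; simp
  have hrA : r ∈ A := by rw [hA3]; simp
  have hdis : ∀ x, x ∈ B → x ∉ B' := fun x h h' => Set.disjoint_left.1 hd h h'
  set C := B \ A with hC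
  set E := A ∪ B' with hE
  have hCE : ∀ x ∈ E, x ∉ C := by
    rintro x (h | h) h'
    · exact h'.2 h
    · exact hdis x h'.1 h
  have hb : bN M E C p q r := by
    refine ⟨⟨Or.inl hpA, Or.inl hqA, Or.inl hrA, hpq, hpr, hqr⟩, ?_⟩
    have : insert p (insert q (insert r C)) = B := by
      ext t
      simp only [mem_insert_iff, hC, mem_sdiff]
      constructor
      · rintro (rfl | rfl | rfl | h)
        · exact hA hpA
        · exact hA hqA
        · exact hA hrA
        · exact h.1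
      · intro h
        by_cases htA : t ∈ A
        · rw [hA3] at htA
          rcases htA with h | h | h
          · exact Or.inl h
          · exact Or.inr (Or.inl h)
          · exact Or.inr (Or.inr (Or.inl h))
        · exact Or.inr (Or.inr (Or.inr ⟨h, htA⟩))
    rwa [this]
  have hc : bD M E p q r := by
    refine ⟨hb.1, ?_⟩
    have : E \ {p, q, r} = B' := by
      rw [← hA3, hE]
      ext t
      simp only [mem_sdiff, mem_union]
      constructor
      · rintro ⟨h | h, h'⟩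
        · exact absurd h h'
        · exact h
      · intro h
        exact ⟨Or.inr h, fun h' => hdis t (hA h') h⟩
    rwa [this]
  obtain ⟨a₂, ha2, a₃, ha3, h23, x, y, z, hx, hy, hz, k1, k2, k3, k4, k5, k6⟩ :=
    exists_chain (bN_mat hCE) bD_mat (bN_bD_orth hCE) hA3 hb hc
  -- the first element
  obtain ⟨a₁, ha1, h12, h13, hA'⟩ : ∃ a₁ ∈ A, a₁ ≠ a₂ ∧ a₁ ≠ a₃ ∧ A = {a₁, a₂, a₃} := by
    rw [hA3] at ha2 ha3
    simp only [mem_insert_iff, mem_singleton_iff] at ha2 ha3
    rcases ha2 with rfl | rfl | rfl <;> rcases ha3 with rfl | rfl | rfl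
    · exact absurd rfl h23
    · exact ⟨r, hrA, hpr.symm, hqr.symm, by rw [hA3]; ext; simp; tauto⟩
    · exact ⟨q, hqA, hpq.symm, hqr, by rw [hA3]; ext; simp; tauto⟩
    · exact ⟨r, hrA, hqr.symm, hpr.symm, by rw [hA3]; ext; simp; tauto⟩
    · exact absurd rfl h23
    · exact ⟨p, hpA, hpq, hpr, by rw [hA3]⟩
    · exact ⟨q, hqA, hqr, hpq.symm, by rw [hA3]; ext; simp; tauto⟩
    · exact ⟨p, hpA, hpr, hpq, by rw [hA3]; ext; simp; tauto⟩
    · exact absurd rfl h23
  have mem : ∀ t, t ∈ E → t ∉ A → t ∈ B' := by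
    rintro t (h | h) h'
    · exact absurd h h'
    · exact h
  have hxB : x ∈ B' := mem x k1.1.1 hx
  have hyB : y ∈ B' := mem y k3.1.2.1 hy
  have hzB : z ∈ B' := mem z k5.1.2.2.1 hz
  have hxy : x ≠ y := k3.1.2.2.2.1
  have hxz : x ≠ z := k5.1.2.2.2.2.1
  have hyz : y ≠ z := k5.1.2.2.2.2.2
  have mA : ∀ t, t ∈ A ↔ t = a₁ ∨ t = a₂ ∨ t = a₃ := by
    intro t
    rw [hA']
    simp
  have hAB : ∀ t, t ∈ A → t ∈ B ∧ t ∉ B' := fun t h => ⟨hA h, hdis t (hA h)⟩
  have m1 := hAB a₁ ha1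
  have m2 := hAB a₂ (by rw [hA']; simp)
  have m3 := hAB a₃ (by rw [hA']; simp)
  refine ⟨a₁, a₂, a₃, x, y, z, hA', ⟨h12, h13, h23⟩, ⟨hxB, hyB, hzB⟩, ⟨hxy, hxz, hyz⟩,
    ⟨?_, ?_⟩, ⟨?_, ?_⟩, ⟨?_, ?_⟩⟩
  · have e : (B \ {a₁}) ∪ {x} = insert x (insert a₂ (insert a₃ C)) := by
      ext t
      simp only [mem_insert_iff, mem_union, mem_sdiff, mem_singleton_iff, hC, mA]
      constructor
      · rintro (⟨h, h'⟩ | h)
        · tauto
        · exact Or.inl h
      · rintro (h | rfl | rfl | h)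
        · exact Or.inr h
        · exact Or.inl ⟨m2.1, h12.symm⟩
        · exact Or.inl ⟨m3.1, h13.symm⟩
        · exact Or.inl ⟨h.1, fun h' => h.2 (Or.inl h')⟩
    rw [e]
    exact k1.2
  · have e : (B' \ {x}) ∪ {a₁} = E \ {x, a₂, a₃} := by
      ext t
      simp only [mem_insert_iff, mem_union, mem_sdiff, mem_singleton_iff, hE, mA]
      constructor
      · rintro (⟨h, h'⟩ | rfl)
        · refine ⟨Or.inr h, ?_⟩
          rintro (h'' | rfl | rfl)
          · exact h' h''
          · exact m2.2 h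
          · exact m3.2 h
        · refine ⟨Or.inl (Or.inl rfl), ?_⟩
          rintro (rfl | h | h)
          · exact m1.2 hxB
          · exact h12 h
          · exact h13 h
      · rintro ⟨h, h'⟩
        tauto
    rw [e]
    exact k2.2
  · have e : (B \ {a₁, a₂}) ∪ {x, y} = insert x (insert y (insert a₃ C)) := by
      ext t
      simp only [mem_insert_iff, mem_union, mem_sdiff, mem_singleton_iff, hC, mA]
      constructor
      · rintro (⟨h, h'⟩ | h)
        · tauto
        · tauto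
      · rintro (h | h | rfl | h)
        · exact Or.inr (Or.inl h)
        · exact Or.inr (Or.inr h)
        · refine Or.inl ⟨m3.1, ?_⟩
          rintro (h | h)
          · exact h13 h.symm
          · exact h23 h.symm
        · exact Or.inl ⟨h.1, fun h' => h.2 (by tauto)⟩
    rw [e]
    exact k3.2
  · have e : (B' \ {x, y}) ∪ {a₁, a₂} = E \ {x, y, a₃} := by
      ext t
      simp only [mem_insert_iff, mem_union, mem_sdiff, mem_singleton_iff, hE, mA]
      constructor
      · rintro (⟨h, h'⟩ | rfl | rfl)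
        · refine ⟨Or.inr h, ?_⟩
          rintro (h'' | h'' | rfl)
          · exact h' (Or.inl h'')
          · exact h' (Or.inr h'')
          · exact m3.2 h
        · refine ⟨Or.inl (Or.inl rfl), ?_⟩
          rintro (rfl | rfl | h)
          · exact m1.2 hxB
          · exact m1.2 hyB
          · exact h13 h
        · refine ⟨Or.inl (Or.inr (Or.inl rfl)), ?_⟩
          rintro (rfl | rfl | h)
          · exact m2.2 hxB
          · exact m2.2 hyB
          · exact h23 h
      · rintro ⟨h, h'⟩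
        tauto
    rw [e]
    exact k4.2
  · have e : (B \ {a₁, a₂, a₃}) ∪ {x, y, z} = insert x (insert y (insert z C)) := by
      ext t
      simp only [mem_insert_iff, mem_union, mem_sdiff, mem_singleton_iff, hC, mA]
      tauto
    rw [e]
    exact k5.2
  · have e : (B' \ {x, y, z}) ∪ {a₁, a₂, a₃} = E \ {x, y, z} := by
      ext t
      simp only [mem_insert_iff, mem_union, mem_sdiff, mem_singleton_iff, hE, mA]
      constructor
      · rintro (⟨h, h'⟩ | h)
        · exact ⟨Or.inr h, h'⟩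
        · refine ⟨Or.inl h, ?_⟩
          rintro (rfl | rfl | rfl)
          · exact (hAB _ ((mA _).2 h)).2 hxB
          · exact (hAB _ ((mA _).2 h)).2 hyB
          · exact (hAB _ ((mA _).2 h)).2 hzB
      · rintro ⟨h, h'⟩
        tauto
    rw [e]
    exact k6.2

theorem im1 (f : Fin 3 → α) : f '' {j | (j : ℕ) < 1} = {f 0} := by
  ext t
  constructor
  · rintro ⟨j, hj, rfl⟩
    have : j = 0 := by
      apply Fin.ext
      simp only [mem_ofPred_eq] at hj
      simp only [Fin.val_zero]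
      omega
    rw [this]
    rfl
  · rintro rfl
    exact ⟨0, by simp, rfl⟩

theorem im2 (f : Fin 3 → α) : f '' {j | (j : ℕ) < 2} = {f 0, f 1} := by
  ext t
  constructor
  · rintro ⟨j, hj, rfl⟩
    fin_cases j
    · exact Or.inl rfl
    · exact Or.inr rfl
    · exact absurd hj (by simp)
  · rintro (rfl | rfl)
    · exact ⟨0, by simp, rfl⟩
    · exact ⟨1, by simp, rfl⟩

theorem im3 (f : Fin 3 → α) : f '' {j | (j : ℕ) < 3} = {f 0, f 1, f 2} := by
  ext t
  constructor
  · rintro ⟨j, hj, rfl⟩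
    fin_cases j
    · exact Or.inl rfl
    · exact Or.inr (Or.inl rfl)
    · exact Or.inr (Or.inr rfl)
  · rintro (rfl | rfl | rfl)
    · exact ⟨0, by simp, rfl⟩
    · exact ⟨1, by simp, rfl⟩
    · exact ⟨2, by simp, rfl⟩

theorem three {M : Matroid α} {B B' A : Set α} (hB : M.IsBase B) (hB' : M.IsBase B')
    (hd : Disjoint B B') (hA : A ⊆ B) (h3 : A.ncard = 3) :
    ∃ a b : Fin 3 → α, Function.Injective a ∧ Function.Injective b ∧
      Set.range a = A ∧ Set.range b ⊆ B' ∧ ∀ i : ℕ, i ≤ 3 →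
        M.IsBase ((B \ a '' {j | (j : ℕ) < i}) ∪ b '' {j | (j : ℕ) < i}) ∧
        M.IsBase ((B' \ b '' {j | (j : ℕ) < i}) ∪ a '' {j | (j : ℕ) < i}) := by
  obtain ⟨a₁, a₂, a₃, x, y, z, hA', ⟨h12, h13, h23⟩, ⟨hxB, hyB, hzB⟩, ⟨hxy, hxz, hyz⟩,
    k1, k2, k3⟩ := core hB hB' hd hA h3
  have inj : ∀ u v w : α, u ≠ v → u ≠ w → v ≠ w → Function.Injective ![u, v, w] := by
    intro u v w h1 h2 h3 i j hij
    fin_cases i <;> fin_cases j <;> simp at hij ⊢ <;> first | exact absurd hij ‹_› |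
      exact absurd hij.symm ‹_›
  refine ⟨![a₁, a₂, a₃], ![x, y, z], inj _ _ _ h12 h13 h23, inj _ _ _ hxy hxz hyz, ?_, ?_, ?_⟩
  · rw [hA', Matrix.range_cons, Matrix.range_cons, Matrix.range_cons, Matrix.range_empty]
    ext t
    simp
    tauto
  · rintro t ⟨j, rfl⟩
    fin_cases j
    · exact hxB
    · exact hyB
    · exact hzB
  · intro i hi
    interval_cases i
    · simpa using ⟨hB, hB'⟩
    · rw [im1, im1]
      exact k1
    · rw [im2, im2]
      exact k2
    · rw [im3, im3]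
      exact k3

private theorem sd1 {x y z w : α} (h1 : x ≠ y) (h2 : x ≠ z) (h3 : x ≠ w) :
    ({x, y, z, w} : Set α) \ {x} = {y, z, w} := by
  ext t
  simp only [mem_sdiff, mem_insert_iff, mem_singleton_iff]
  constructor
  · tauto
  · rintro (rfl | rfl | rfl)
    · exact ⟨by tauto, h1.symm⟩
    · exact ⟨by tauto, h2.symm⟩
    · exact ⟨by tauto, h3.symm⟩

private theorem sd2 {x y z w : α} (h1 : x ≠ z) (h2 : x ≠ w) (h3 : y ≠ z) (h4 : y ≠ w) :
    ({x, y, z, w} : Set α) \ {x, y} = {z, w} := by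
  ext t
  simp only [mem_sdiff, mem_insert_iff, mem_singleton_iff]
  constructor
  · tauto
  · rintro (rfl | rfl)
    · exact ⟨by tauto, by rintro (h | h); exacts [h1 h.symm, h3 h.symm]⟩
    · exact ⟨by tauto, by rintro (h | h); exacts [h2 h.symm, h4 h.symm]⟩

private theorem sd3 {x y z w : α} (h1 : x ≠ w) (h2 : y ≠ w) (h3 : z ≠ w) :
    ({x, y, z, w} : Set α) \ {x, y, z} = {w} := by
  ext t
  simp only [mem_sdiff, mem_insert_iff, mem_singleton_iff]
  constructor
  · tauto
  · rintro rfl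
    exact ⟨by tauto, by rintro (h | h | h); exacts [h1 h.symm, h2 h.symm, h3 h.symm]⟩

theorem rank_four {M : Matroid α} {B B' : Set α} (hB : M.IsBase B) (hB' : M.IsBase B')
    (hd : Disjoint B B') (h4 : B.ncard = 4) {e : α} (he : e ∈ B) :
    ∃ x : ZMod 8 → α, Function.Injective x ∧ x 0 = e ∧
      {x 0, x 1, x 2, x 3} = B ∧ {x 4, x 5, x 6, x 7} = B' ∧
      ∀ i, M.IsBase {x i, x (i + 1), x (i + 2), x (i + 3)} := by
  have hdis : ∀ x, x ∈ B → x ∉ B' := fun x h h' => Set.disjoint_left.1 hd h h'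
  have hfin : B.Finite := Set.finite_of_ncard_ne_zero (by omega)
  have h3 : (B \ {e}).ncard = 3 := by
    rw [Set.ncard_sdiff_singleton_of_mem he, h4]
  have h4' : B'.ncard = 4 := by
    have := hB.encard_eq_encard_of_isBase hB'
    rw [← h4, Set.ncard, Set.ncard, this]
  have hfin' : B'.Finite := Set.finite_of_ncard_ne_zero (by omega)
  obtain ⟨a₁, a₂, a₃, x, y, z, hA', ⟨h12, h13, h23⟩, ⟨hxB, hyB, hzB⟩, ⟨hxy, hxz, hyz⟩,
    k1, k2, k3⟩ := core hB hB' hd sdiff_subset h3
  -- the last element of the second base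
  obtain ⟨w, hw⟩ : ∃ w, B' \ {x, y, z} = {w} := by
    rw [← Set.ncard_eq_one]
    have hsub : ({x, y, z} : Set α) ⊆ B' := by
      rintro t (rfl | rfl | rfl)
      · exact hxB
      · exact hyB
      · exact hzB
    have := Set.ncard_sdiff_add_ncard_of_subset hsub hfin'
    have h3' : ({x, y, z} : Set α).ncard = 3 := Set.ncard_eq_three.2 ⟨x, y, z, hxy, hxz, hyz, rfl⟩
    omega
  have hwB : w ∈ B' \ {x, y, z} := by rw [hw]; rfl
  have hwx : w ≠ x ∧ w ≠ y ∧ w ≠ z := by
    have := hwB.2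
    simp only [mem_insert_iff, mem_singleton_iff, not_or] at this
    exact this
  have hBe : B = {a₁, a₂, a₃, e} := by
    ext t
    simp only [mem_insert_iff, mem_singleton_iff]
    constructor
    · intro h
      by_cases hte : t = e
      · tauto
      · have : t ∈ B \ {e} := ⟨h, hte⟩
        rw [hA'] at this
        simp only [mem_insert_iff, mem_singleton_iff] at this
        tauto
    · intro h
      by_cases hte : t = e
      · rw [hte]; exact he
      · have : t ∈ B \ {e} := by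
          rw [hA']
          simp only [mem_insert_iff, mem_singleton_iff]
          tauto
        exact this.1
  have hB'e : B' = {x, y, z, w} := by
    ext t
    simp only [mem_insert_iff, mem_singleton_iff]
    constructor
    · intro h
      by_cases ht : t ∈ ({x, y, z} : Set α)
      · simp only [mem_insert_iff, mem_singleton_iff] at ht
        tauto
      · have : t ∈ B' \ {x, y, z} := ⟨h, ht⟩
        rw [hw] at this
        simp only [mem_singleton_iff] at this
        tauto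
    · rintro (rfl | rfl | rfl | rfl)
      · exact hxB
      · exact hyB
      · exact hzB
      · exact hwB.1
  have ae : ∀ t, t ∈ ({a₁, a₂, a₃} : Set α) → t ≠ e := by
    intro t ht
    rw [← hA'] at ht
    exact ht.2
  have e1 : a₁ ≠ e := ae a₁ (by simp)
  have e2 : a₂ ≠ e := ae a₂ (by simp)
  have e3 : a₃ ≠ e := ae a₃ (by simp)
  have cross : ∀ t ∈ B, ∀ u ∈ B', t ≠ u := by
    rintro t ht u hu rfl
    exact hdis t ht hu
  have f1 : a₁ ∈ B := by rw [hBe]; simp
  have f2 : a₂ ∈ B := by rw [hBe]; simp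
  have f3 : a₃ ∈ B := by rw [hBe]; simp
  rw [hBe, hB'e] at k1 k2 k3
  rw [sd1 h12 h13 e1, sd1 hxy hxz hwx.1.symm] at k1
  rw [sd2 h13 e1 h23 e2, sd2 hxz hwx.1.symm hyz hwx.2.1.symm] at k2
  rw [sd3 e1 e2 e3, sd3 hwx.1.symm hwx.2.1.symm hwx.2.2.symm] at k3
  have perm : ∀ {S T : Set α}, M.IsBase S → S = T → M.IsBase T := fun h h' => h' ▸ h
  let f : ZMod 8 → α := (![e, a₃, a₂, a₁, w, z, y, x] : Fin 8 → α)
  have hf : Function.Injective f := by
    have hl : [e, a₃, a₂, a₁, w, z, y, x].Nodup := by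
      simp only [List.nodup_cons, List.mem_cons, List.not_mem_nil, not_or, List.nodup_nil,
        or_false, not_false_eq_true, and_true]
      refine ⟨⟨e3.symm, e2.symm, e1.symm, cross e he w hwB.1, cross e he z hzB,
        cross e he y hyB, cross e he x hxB⟩, ⟨h23.symm, h13.symm, cross a₃ f3 w hwB.1,
        cross a₃ f3 z hzB, cross a₃ f3 y hyB, cross a₃ f3 x hxB⟩, ⟨h12.symm,
        cross a₂ f2 w hwB.1, cross a₂ f2 z hzB, cross a₂ f2 y hyB, cross a₂ f2 x hxB⟩,
        ⟨cross a₁ f1 w hwB.1, cross a₁ f1 z hzB, cross a₁ f1 y hyB, cross a₁ f1 x hxB⟩,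
        ⟨hwx.2.2, hwx.2.1, hwx.1⟩, ⟨hyz.symm, hxz.symm⟩, hxy.symm⟩
    intro i j hij
    have hget : ∀ i : Fin 8, f i = [e, a₃, a₂, a₁, w, z, y, x].get i := by
      intro i
      fin_cases i <;> rfl
    have h' : [e, a₃, a₂, a₁, w, z, y, x].get (i : Fin 8) =
        [e, a₃, a₂, a₁, w, z, y, x].get (j : Fin 8) := by
      rw [← hget, ← hget]
      exact hij
    exact List.nodup_iff_injective_get.1 hl h'
  refine ⟨f, hf, rfl, ?_, ?_, ?_⟩
  · rw [hBe]
    show ({e, a₃, a₂, a₁} : Set α) = _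
    ext t
    simp only [mem_insert_iff, mem_singleton_iff]
    tauto
  · rw [hB'e]
    show ({w, z, y, x} : Set α) = _
    ext t
    simp only [mem_insert_iff, mem_singleton_iff]
    tauto
  · intro i
    have hi : i = 0 ∨ i = 1 ∨ i = 2 ∨ i = 3 ∨ i = 4 ∨ i = 5 ∨ i = 6 ∨ i = 7 := by
      revert i
      decide
    rcases hi with rfl | rfl | rfl | rfl | rfl | rfl | rfl | rfl
    · show M.IsBase {e, a₃, a₂, a₁}
      refine perm hB ?_
      rw [hBe]
      ext t
      simp only [mem_insert_iff, mem_singleton_iff]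
      tauto
    · show M.IsBase {a₃, a₂, a₁, w}
      refine perm k3.2 ?_
      ext t
      simp only [mem_insert_iff, mem_singleton_iff, mem_union]
      tauto
    · show M.IsBase {a₂, a₁, w, z}
      refine perm k2.2 ?_
      ext t
      simp only [mem_insert_iff, mem_singleton_iff, mem_union]
      tauto
    · show M.IsBase {a₁, w, z, y}
      refine perm k1.2 ?_
      ext t
      simp only [mem_insert_iff, mem_singleton_iff, mem_union]
      tauto
    · show M.IsBase {w, z, y, x}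
      refine perm hB' ?_
      rw [hB'e]
      ext t
      simp only [mem_insert_iff, mem_singleton_iff]
      tauto
    · show M.IsBase {z, y, x, e}
      refine perm k3.1 ?_
      ext t
      simp only [mem_insert_iff, mem_singleton_iff, mem_union]
      tauto
    · show M.IsBase {y, x, e, a₃}
      refine perm k2.1 ?_
      ext t
      simp only [mem_insert_iff, mem_singleton_iff, mem_union]
      tauto
    · show M.IsBase {x, e, a₃, a₂}
      refine perm k1.1 ?_
      ext t
      simp only [mem_insert_iff, mem_singleton_iff, mem_union]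
      tauto

end Pool.Agent.Lib.MP_2c7063_co
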